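import Mathlib

/-!
# Jordan blocks of powers and conjugates of unipotent maps
-/

namespace Pool.Agent.Q128.TS

open Module

variable {k V : Type*} [Field k] [CharZero k] [AddCommGroup V] [Module k V]

lemma isUnit_geom {g : V →ₗ[k] V} (hg : IsNilpotent (g - 1)) {e : ℕ} (he : 0 < e) :
    IsUnit (∑ i ∈ Finset.range e, g ^ i) := by
  have h1 : ∀ i : ℕ, ∃ h : V →ₗ[k] V, Commute (g - 1) h ∧ g ^ i - 1 = (g - 1) * h := by
    intro i
    refine ⟨∑ j ∈ Finset.range i, g ^ j, ?_, (mul_geom_sum g i).symm⟩
    refine Commute.sum_right _ _ _ fun j _ => ?_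
    exact ((Commute.refl g).sub_left (Commute.one_left g)).pow_right j
  choose h hc hh using h1
  have h2 : (∑ i ∈ Finset.range e, g ^ i) = (g - 1) * (∑ i ∈ Finset.range e, h i) +
      algebraMap k (V →ₗ[k] V) (e : k) := by
    rw [Finset.mul_sum]
    have h3 : ∀ i ∈ Finset.range e, g ^ i = (g - 1) * h i + 1 := fun i _ => by
      rw [← hh i, sub_add_cancel]
    rw [Finset.sum_congr rfl h3, Finset.sum_add_distrib]
    congr 1
    rw [Finset.sum_const, Finset.card_range, map_natCast, nsmul_eq_mul, mul_one]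
  have h4 : Commute (g - 1) (∑ i ∈ Finset.range e, h i) := Commute.sum_right _ _ _ fun i _ => hc i
  have h5 : IsNilpotent ((g - 1) * ∑ i ∈ Finset.range e, h i) := h4.isNilpotent_mul_right hg
  rw [h2]
  have he0 : (e : k) ≠ 0 := by exact_mod_cast he.ne'
  have h6 : IsUnit (algebraMap k (V →ₗ[k] V) (e : k)) := (IsUnit.mk0 _ he0).map _
  exact IsNilpotent.isUnit_add_right_of_commute h5 h6 (Algebra.commute_algebraMap_right _ _)

lemma finrank_range_pow {g : V →ₗ[k] V} (hg : IsNilpotent (g - 1)) {e : ℕ} (he : 0 < e) (i : ℕ) :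
    finrank k (LinearMap.range ((g ^ e - 1) ^ i)) = finrank k (LinearMap.range ((g - 1) ^ i)) := by
  set u := ∑ i ∈ Finset.range e, g ^ i with hu
  have h1 : g ^ e - 1 = (g - 1) * u := (mul_geom_sum g e).symm
  have hc : Commute (g - 1) u := by
    refine Commute.sum_right _ _ _ fun j _ => ?_
    exact ((Commute.refl g).sub_left (Commute.one_left g)).pow_right j
  have h2 : (g ^ e - 1) ^ i = (g - 1) ^ i * u ^ i := by rw [h1, hc.mul_pow]
  have h3 : IsUnit (u ^ i) := (isUnit_geom hg he).pow i
  rw [h2]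
  change finrank k (LinearMap.range (((g - 1) ^ i) ∘ₗ (u ^ i))) = _
  rw [LinearMap.range_comp_of_range_eq_top]
  exact LinearMap.range_eq_top.2 ((Module.End.isUnit_iff _).1 h3).2

lemma finrank_range_conj {a b g : V →ₗ[k] V} (hab : a * b = 1) (hba : b * a = 1) (i : ℕ) :
    finrank k (LinearMap.range ((a * g * b - 1) ^ i)) = finrank k (LinearMap.range ((g - 1) ^ i)) := by
  have h1 : a * g * b - 1 = a * (g - 1) * b := by
    rw [mul_sub, sub_mul, mul_one, hab]
  have h2 : (a * (g - 1) * b) ^ i = a * (g - 1) ^ i * b := by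
    induction i with
    | zero => simp [hab]
    | succ i ih =>
      rw [pow_succ, ih, pow_succ]
      calc a * (g - 1) ^ i * b * (a * (g - 1) * b) = a * (g - 1) ^ i * (b * a) * (g - 1) * b := by
            simp only [mul_assoc]
        _ = _ := by rw [hba]; simp only [mul_assoc, mul_one, one_mul]
  rw [h1, h2]
  have hbs : LinearMap.range b = ⊤ := by
    refine LinearMap.range_eq_top.2 fun x => ⟨a x, ?_⟩
    have := congrArg (fun f : V →ₗ[k] V => f x) hba
    exact this
  have hai : Function.Injective a := by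
    intro x y hxy
    have h3 : (b * a) x = (b * a) y := by
      change b (a x) = b (a y)
      rw [hxy]
    rwa [hba] at h3
  change finrank k (LinearMap.range ((a ∘ₗ ((g - 1) ^ i)) ∘ₗ b)) = _
  rw [LinearMap.range_comp_of_range_eq_top _ hbs, LinearMap.range_comp]
  exact (Submodule.equivMapOfInjective a hai _).symm.finrank_eq

end Pool.Agent.Q128.TS
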