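import Pool.Agent.Q128.TS.Turan

/-!
# The sieve of Turán type for sets of residues of positive density
-/

namespace Pool.Agent.Q128.TS

open Finset

/-- the primes `p ≥ m` with `p ^ 2 ≤ 4 H` which satisfy `R` -/
noncomputable def pr (R : ℕ → Prop) (H : ℕ) : Finset ℕ := by
  classical
  exact (range (4 * H + 1)).filter fun p => p.Prime ∧ p * p ≤ 4 * H ∧ R p

lemma mem_pr {R : ℕ → Prop} {H p : ℕ} : p ∈ pr R H ↔ p.Prime ∧ p * p ≤ 4 * H ∧ R p := by
  classical
  rw [pr, mem_filter, mem_range]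
  constructor
  · exact fun h => h.2
  · intro h
    refine ⟨?_, h⟩
    have h1 := h.1.one_lt
    nlinarith [h.2.1]

lemma pi_lower {n : ℕ} (hn : 20 ≤ n) : (n : ℝ) / (2 * Real.log n) ≤ Nat.primeCounting n := by
  have h1 := Chebyshev.pi_ge n
  have hn' : (20 : ℝ) ≤ n := by exact_mod_cast hn
  have hlog : 0 < Real.log n := Real.log_pos (by linarith)
  refine le_trans ?_ h1
  rw [div_le_div_iff₀ (by positivity) hlog]
  have h2 : Real.log (n + 1) ≤ (n + 1) / 8 + Real.log 8 - 1 := by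
    have h3 := Real.log_le_sub_one_of_pos (x := ((n : ℝ) + 1) / 8) (by positivity)
    rw [Real.log_div (by positivity) (by norm_num)] at h3
    linarith
  have h4 : Real.log 8 = 3 * Real.log 2 := by
    rw [show (8 : ℝ) = 2 ^ 3 by norm_num, Real.log_pow]
    norm_num
  have h5 := Real.log_two_gt_d9
  have h6 := Real.log_two_lt_d9
  have h7 : (n : ℝ) / 2 ≤ n * Real.log 2 - Real.log (n + 1) := by
    rw [h4] at h2
    nlinarith
  nlinarith

/-- lower bound for the number of primes in `pr` -/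
lemma card_pr {m H : ℕ} (R : ℕ → Prop) (hR : ∀ p, p.Prime → m ≤ p → R p) (h20 : 20 ≤ Nat.sqrt H)
    (hm : 64 * m ^ 2 ≤ Nat.sqrt H) :
    Real.sqrt H / (4 * Real.log H) ≤ (((pr R H).filter fun p => m ≤ p).card : ℝ) := by
  classical
  set n := Nat.sqrt H with hn
  have hn' : (20 : ℝ) ≤ n := by exact_mod_cast h20
  have hnn : n * n ≤ H := Nat.sqrt_le H
  have hH1 : H < (n + 1) * (n + 1) := Nat.lt_succ_sqrt H
  have hHpos : 20 * 20 ≤ H := le_trans (Nat.mul_le_mul h20 h20) hnn
  have hH' : (400 : ℝ) ≤ H := by exact_mod_cast hHpos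
  set L := Real.log H with hL
  have hL0 : 0 < L := Real.log_pos (by linarith)
  have hsqn : Real.sqrt n ^ 2 = n := Real.sq_sqrt (by positivity)
  have hsq0 : 0 ≤ Real.sqrt n := Real.sqrt_nonneg _
  have hsq4 : 4 ≤ Real.sqrt n := by
    rw [show (4 : ℝ) = Real.sqrt (4 ^ 2) by rw [Real.sqrt_sq (by norm_num)]]
    exact Real.sqrt_le_sqrt (by linarith)
  -- log n ≤ L / 2
  have hlogn : 0 < Real.log n := Real.log_pos (by linarith)
  have h1 : 2 * Real.log n ≤ L := by
    have h2 : Real.log ((n : ℝ) * n) ≤ L := by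
      refine Real.log_le_log (by positivity) ?_
      exact_mod_cast hnn
    rw [Real.log_mul (by positivity) (by positivity)] at h2
    linarith
  -- L ≤ 4 sqrt n
  have h3 : L ≤ 4 * Real.sqrt n := by
    have h4 : L ≤ Real.log (((n : ℝ) + 1) * (n + 1)) := by
      refine Real.log_le_log (by positivity) ?_
      exact_mod_cast hH1.le
    rw [Real.log_mul (by positivity) (by positivity)] at h4
    have h5 : Real.log ((n : ℝ) + 1) ≤ 2 * Real.sqrt n := by
      have h6 : (n : ℝ) + 1 ≤ (Real.sqrt n + 1) ^ 2 := by nlinarith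
      have h7 : Real.log ((n : ℝ) + 1) ≤ Real.log ((Real.sqrt n + 1) ^ 2) :=
        Real.log_le_log (by positivity) h6
      rw [Real.log_pow] at h7
      have h8 := Real.log_le_sub_one_of_pos (x := Real.sqrt n + 1) (by positivity)
      push_cast at h7
      linarith
    linarith
  have hmr : (m : ℝ) ≤ Real.sqrt n / 8 := by
    have h4 : (64 : ℝ) * (m : ℝ) ^ 2 ≤ n := by exact_mod_cast hm
    rw [← hsqn] at h4
    have h5 : (8 * (m : ℝ)) ^ 2 ≤ Real.sqrt n ^ 2 := by nlinarith
    have h6 := (sq_le_sq₀ (by positivity) hsq0).1 h5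
    linarith
  have hpi := pi_lower h20
  have hcard : (Nat.primeCounting n : ℝ) - m ≤ (((pr R H).filter fun p => m ≤ p).card : ℝ) := by
    have h4 : Nat.primeCounting n = ((range (n + 1)).filter Nat.Prime).card := by
      rw [Nat.primeCounting, Nat.primeCounting', Nat.count_eq_card_filter_range]
    have h5 : ((range (n + 1)).filter Nat.Prime).card ≤
        ((pr R H).filter fun p => m ≤ p).card + m := by
      have h6 : (range (n + 1)).filter Nat.Prime ⊆ ((pr R H).filter fun p => m ≤ p) ∪ range m := by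
        intro p hp
        rw [mem_filter, mem_range] at hp
        rw [mem_union, mem_filter, mem_range, mem_pr]
        by_cases h : m ≤ p
        · refine Or.inl ⟨⟨hp.2, ?_, hR p hp.2 h⟩, h⟩
          have h7 : p * p ≤ n * n := Nat.mul_le_mul (by omega) (by omega)
          omega
        · exact Or.inr (by omega)
      calc _ ≤ _ := Finset.card_le_card h6
        _ ≤ _ := Finset.card_union_le _ _
        _ = _ := by rw [card_range]
    rw [h4]
    have h6 : (((range (n + 1)).filter Nat.Prime).card : ℝ) ≤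
        (((pr R H).filter fun p => m ≤ p).card : ℝ) + m := by exact_mod_cast h5
    linarith
  refine le_trans ?_ hcard
  have h4 : (n : ℝ) / L ≤ (n : ℝ) / (2 * Real.log n) := by gcongr
  have h5 : (m : ℝ) * L ≤ n / 2 := by
    calc (m : ℝ) * L ≤ (Real.sqrt n / 8) * (4 * Real.sqrt n) := by gcongr
      _ = Real.sqrt n ^ 2 / 2 := by ring
      _ = n / 2 := by rw [hsqn]
  have h6 : Real.sqrt H ≤ n + 1 := by
    rw [show (n : ℝ) + 1 = Real.sqrt (((n : ℝ) + 1) ^ 2) by rw [Real.sqrt_sq (by positivity)]]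
    refine Real.sqrt_le_sqrt ?_
    have : (H : ℝ) ≤ ((n : ℝ) + 1) * (n + 1) := by exact_mod_cast hH1.le
    nlinarith
  have h7 : (n : ℝ) / L - m ≤ (Nat.primeCounting n : ℝ) - m := by linarith
  refine le_trans ?_ h7
  rw [div_le_iff₀ (by positivity)]
  have h8 : ((n : ℝ) / L - m) * (4 * L) = 4 * n - 4 * (m * L) := by field_simp
  rw [h8]
  nlinarith

/-- the number of integral points of the cube is at most `(3 H)^r` -/
lemma ncard_cube_le {r H : ℕ} (hH : 1 ≤ H) (S : Set (Fin r → ℤ)) (hS : ∀ t ∈ S, ∀ j, |t j| ≤ (H : ℤ)) :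
    (S.ncard : ℝ) ≤ (3 * (H : ℝ)) ^ r ∧ S.Finite := by
  classical
  set B : Finset (Fin r → ℤ) := Fintype.piFinset fun _ => Icc (-(H : ℤ)) H with hB
  have h1 : S ⊆ B := fun t ht => by
    rw [hB, Finset.mem_coe, Fintype.mem_piFinset]
    exact fun j => Finset.mem_Icc.2 (abs_le.1 (hS t ht j))
  refine ⟨?_, B.finite_toSet.subset h1⟩
  have h2 : S.ncard ≤ B.card := by
    rw [← Set.ncard_coe_finset]
    exact Set.ncard_le_ncard h1 B.finite_toSet
  have h3 : B.card = (2 * H + 1) ^ r := by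
    rw [hB, Fintype.card_piFinset]
    simp only [Int.card_Icc, Finset.prod_const, Finset.card_univ, Fintype.card_fin]
    congr 1
    omega
  rw [h3] at h2
  have h4 : ((2 * H + 1) ^ r : ℝ) ≤ (3 * (H : ℝ)) ^ r := by
    have : (1 : ℝ) ≤ H := by exact_mod_cast hH
    gcongr
    linarith
  refine le_trans ?_ h4
  exact_mod_cast h2

/-- **Turán sieve, sets of positive density**: all but `O (H ^ (r - 1/2) log H)` of the integral
points are in `Ω p` modulo `p` for more than `k` primes `p`. -/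
theorem few_pos {r : ℕ} (k : ℕ) (R : ℕ → Prop) (m : ℕ) (hR : ∀ p, p.Prime → m ≤ p → R p) (c : ℝ) (hc : 0 < c)
    (Ω : ∀ p : ℕ, Set (Fin r → ZMod p))
    (hΩ : ∀ p, p.Prime → m ≤ p → c * (p : ℝ) ^ r ≤ ((Ω p).ncard : ℝ)) :
    ∃ C : ℝ, 0 ≤ C ∧ ∀ H : ℕ, 2 ≤ H →
      (Set.ncard {t : Fin r → ℤ | (∀ j, |t j| ≤ (H : ℤ)) ∧
        Set.ncard {p : ℕ | p ∈ pr R H ∧ (fun j => (t j : ZMod p)) ∈ Ω p} ≤ k} : ℝ) ≤
      C * ((H : ℝ) ^ r * Real.log H / Real.sqrt H) := by
  classical
  set A : ℝ := (4 * 10 ^ r + 2 * k) * 3 ^ r with hA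
  have hA0 : 0 < A := by positivity
  set n0 : ℕ := max 20 (64 * m ^ 2) with hn0
  set H0 : ℕ := n0 * n0 with hH0
  have hlog2 : 0 < Real.log 2 := Real.log_pos (by norm_num)
  set C : ℝ := A * 4 / c + 3 ^ r * Real.sqrt H0 / Real.log 2 with hC
  refine ⟨C, by positivity, fun H hH => ?_⟩
  have hH' : (2 : ℝ) ≤ H := by exact_mod_cast hH
  have hlogH : Real.log 2 ≤ Real.log H := Real.log_le_log (by norm_num) hH'
  have hlogH0 : 0 < Real.log H := hlog2.trans_le hlogH
  have hsq : 0 < Real.sqrt H := Real.sqrt_pos.2 (by linarith)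
  by_cases hbig : H0 ≤ H
  · have hn : n0 ≤ Nat.sqrt H := Nat.le_sqrt.2 hbig
    have h20 : 20 ≤ Nat.sqrt H := le_trans (le_max_left _ _) hn
    have h64 : 64 * m ^ 2 ≤ Nat.sqrt H := le_trans (le_max_right _ _) hn
    have hcard := card_pr R hR h20 h64
    have hfew := few (r := r) k (pr R H) (fun p hp => (mem_pr.1 hp).1) H (by omega)
      (fun p hp => (mem_pr.1 hp).2.1) Ω
    have hS : c * (Real.sqrt H / (4 * Real.log H)) ≤
        ∑ p ∈ pr R H, ((Ω p).ncard : ℝ) / (p : ℝ) ^ r := by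
      calc c * (Real.sqrt H / (4 * Real.log H)) ≤
          c * (((pr R H).filter fun p => m ≤ p).card : ℝ) := by gcongr
        _ = ∑ _p ∈ (pr R H).filter fun p => m ≤ p, c := by
            rw [Finset.sum_const, nsmul_eq_mul, mul_comm]
        _ ≤ ∑ p ∈ (pr R H).filter fun p => m ≤ p, ((Ω p).ncard : ℝ) / (p : ℝ) ^ r := by
            refine Finset.sum_le_sum fun p hp => ?_
            rw [mem_filter, mem_pr] at hp
            have hp0 : (0 : ℝ) < p := by exact_mod_cast hp.1.1.pos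
            rw [le_div_iff₀ (by positivity)]
            exact hΩ p hp.1.1 hp.2
        _ ≤ _ := Finset.sum_le_sum_of_subset_of_nonneg (Finset.filter_subset _ _)
            fun _ _ _ => by positivity
    set X : ℝ := (Set.ncard {t : Fin r → ℤ | (∀ j, |t j| ≤ (H : ℤ)) ∧
        Set.ncard {p : ℕ | p ∈ pr R H ∧ (fun j => (t j : ZMod p)) ∈ Ω p} ≤ k} : ℝ) with hX
    have hX0 : 0 ≤ X := by positivity
    have h1 : X * (c * (Real.sqrt H / (4 * Real.log H))) ≤ A * (H : ℝ) ^ r := by
      refine (mul_le_mul_of_nonneg_left hS hX0).trans (hfew.trans (le_of_eq ?_))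
      rw [hA, mul_pow]
      ring
    have h2 : X ≤ (A * 4 / c) * ((H : ℝ) ^ r * Real.log H / Real.sqrt H) := by
      have h3 : X * (c * (Real.sqrt H / (4 * Real.log H))) = X * (c * Real.sqrt H) / (4 * Real.log H) := by
        ring
      rw [h3, div_le_iff₀ (by positivity)] at h1
      have h4 : (A * 4 / c) * ((H : ℝ) ^ r * Real.log H / Real.sqrt H) =
          A * (H : ℝ) ^ r * (4 * Real.log H) / (c * Real.sqrt H) := by
        field_simp
      rw [h4, le_div_iff₀ (by positivity)]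
      exact h1
    refine h2.trans ?_
    have h5 : 0 ≤ 3 ^ r * Real.sqrt H0 / Real.log 2 := by positivity
    refine mul_le_mul_of_nonneg_right ?_ (by positivity)
    rw [hC]
    linarith
  · push Not at hbig
    have h1 := (ncard_cube_le (r := r) (H := H) (by omega) {t : Fin r → ℤ | (∀ j, |t j| ≤ (H : ℤ)) ∧
        Set.ncard {p : ℕ | p ∈ pr R H ∧ (fun j => (t j : ZMod p)) ∈ Ω p} ≤ k} fun t ht => ht.1).1
    refine h1.trans ?_
    have h2 : Real.sqrt H ≤ Real.sqrt H0 := Real.sqrt_le_sqrt (by exact_mod_cast hbig.le)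
    have h3 : (3 * (H : ℝ)) ^ r ≤ (3 ^ r * Real.sqrt H0 / Real.log 2) *
        ((H : ℝ) ^ r * Real.log H / Real.sqrt H) := by
      have h4 : (3 ^ r * Real.sqrt H0 / Real.log 2) * ((H : ℝ) ^ r * Real.log H / Real.sqrt H) =
          (3 * (H : ℝ)) ^ r * ((Real.sqrt H0 / Real.sqrt H) * (Real.log H / Real.log 2)) := by
        rw [mul_pow]
        field_simp
      rw [h4]
      have h5 : 1 ≤ Real.sqrt H0 / Real.sqrt H := (one_le_div hsq).2 h2
      have h6 : 1 ≤ Real.log H / Real.log 2 := (one_le_div hlog2).2 hlogH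
      have h7 : 1 ≤ (Real.sqrt H0 / Real.sqrt H) * (Real.log H / Real.log 2) := by nlinarith
      have h8 : (0 : ℝ) ≤ (3 * (H : ℝ)) ^ r := by positivity
      nlinarith
    refine h3.trans (mul_le_mul_of_nonneg_right ?_ (by positivity))
    rw [hC]
    have : 0 ≤ A * 4 / c := by positivity
    linarith

end Pool.Agent.Q128.TS
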