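import Pool.Agent.H291R2.FB_LsMulti

/-!
# A sieve of Turán type for integral points in several variables

For sets `Ω p` of residue classes in `(ℤ/p)^r`, `p` in a finite set `P` of primes, with densities `δ_p`,
all but `C H^r / ∑ δ_p` of the integral points `t`, `|t_j| ≤ H`, are in `Ω p` modulo `p` for more than `k`
of the primes `p`, if the primes are at most `2 √H` (large sieve in several variables).
-/

namespace Pool.Agent.Q128.TS

open Finset
open Pool.Agent.H469R2.NK (e norm_e e_add conj_e e_zero)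
open Pool.Agent.H442R2.EHI
open Pool.Agent.H291R2.FB

/-- the cube `[0, p)^r` -/
def cube (r p : ℕ) : Finset (Fin r → ℕ) := Fintype.piFinset fun _ => range p

lemma mem_cube {r p : ℕ} {a : Fin r → ℕ} : a ∈ cube r p ↔ ∀ i, a i < p := by
  simp [cube, Fintype.mem_piFinset]

lemma card_cube (r p : ℕ) : (cube r p).card = p ^ r := by
  simp [cube, Fintype.card_piFinset]

lemma orth {r : ℕ} (p : ℕ) (hp : 0 < p) (u : Fin r → ℤ) :
    ∑ a ∈ cube r p, e ((∑ i, (u i : ℝ) * (a i : ℝ)) / p) =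
      if ∀ i, (p : ℤ) ∣ u i then (p : ℂ) ^ r else 0 := by
  have h1 : ∀ a ∈ cube r p, e ((∑ i, (u i : ℝ) * (a i : ℝ)) / p) =
      ∏ i, e ((u i : ℝ) * (a i : ℝ) / p) := by
    intro a _
    rw [Finset.sum_div, LsAux.e_sum]
  rw [sum_congr rfl h1, cube,
    ← Finset.prod_univ_sum (fun _ => range p) fun i j => e ((u i : ℝ) * (j : ℝ) / p)]
  have h2 : ∀ i, ∑ j ∈ range p, e ((u i : ℝ) * (j : ℝ) / p) = if (p : ℤ) ∣ u i then (p : ℂ) else 0 :=
    fun i => MinorAux.sum_period p hp (u i)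
  simp only [h2]
  split_ifs with h
  · rw [Finset.prod_congr rfl (fun i _ => if_pos (h i))]
    simp
  · push Not at h
    obtain ⟨i, hi⟩ := h
    exact Finset.prod_eq_zero (mem_univ i) (if_neg hi)

/-- Fourier coefficients of a set of residues -/
noncomputable def cf {r : ℕ} (p : ℕ) (W : Finset (Fin r → ℕ)) (a : Fin r → ℕ) : ℂ :=
  (1 / (p : ℂ) ^ r) * ∑ x ∈ W, e (-((∑ i, (a i : ℝ) * (x i : ℝ)) / p))

lemma cf_zero {r : ℕ} (p : ℕ) (W : Finset (Fin r → ℕ)) :
    cf p W 0 = ((W.card : ℝ) / (p : ℝ) ^ r : ℝ) := by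
  simp [cf, e_zero]
  ring

lemma cf_expand {r : ℕ} (p : ℕ) (hp : 0 < p) (W : Finset (Fin r → ℕ)) (hW : W ⊆ cube r p)
    (t : Fin r → ℕ) :
    ∑ a ∈ cube r p, cf p W a * e ((∑ i, (a i : ℝ) * (t i : ℝ)) / p) =
      if (fun i => t i % p) ∈ W then 1 else 0 := by
  have hp0 : (p : ℂ) ^ r ≠ 0 := pow_ne_zero _ (by exact_mod_cast hp.ne')
  have h1 : ∀ a ∈ cube r p, cf p W a * e ((∑ i, (a i : ℝ) * (t i : ℝ)) / p) =
      (1 / (p : ℂ) ^ r) * ∑ x ∈ W, e ((∑ i, (((t i : ℤ) - (x i : ℤ) : ℤ) : ℝ) * (a i : ℝ)) / p) := by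
    intro a _
    rw [cf, mul_assoc, sum_mul]
    congr 1
    refine sum_congr rfl fun x _ => ?_
    rw [← e_add, ← neg_div, ← add_div, ← sum_neg_distrib, ← sum_add_distrib]
    congr 2
    refine sum_congr rfl fun i _ => ?_
    push_cast
    ring
  rw [sum_congr rfl h1, ← mul_sum, sum_comm]
  have h2 : ∀ x ∈ W, ∑ a ∈ cube r p,
      e ((∑ i, (((t i : ℤ) - (x i : ℤ) : ℤ) : ℝ) * (a i : ℝ)) / p) =
      if x = (fun i => t i % p) then (p : ℂ) ^ r else 0 := by
    intro x hx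
    rw [orth p hp]
    have hx' := mem_cube.1 (hW hx)
    refine if_congr ⟨fun h => ?_, fun h i => ?_⟩ rfl rfl
    · funext i
      have h3 : (x i : ℤ) ≡ t i [ZMOD p] := (Int.modEq_iff_dvd).2 (h i)
      have h4 : x i ≡ t i [MOD p] := Int.natCast_modEq_iff.1 h3
      rw [← Nat.mod_eq_of_lt (hx' i)]
      exact h4
    · have h3 : x i = t i % p := congrFun h i
      have h4 : x i ≡ t i [MOD p] := by
        rw [h3]
        exact Nat.mod_modEq _ _
      exact (Int.modEq_iff_dvd).1 (Int.natCast_modEq_iff.2 h4)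
  rw [sum_congr rfl h2, sum_ite_eq']
  split_ifs
  · field_simp
  · simp

lemma cf_parseval {r : ℕ} (p : ℕ) (hp : 0 < p) (W : Finset (Fin r → ℕ)) (hW : W ⊆ cube r p) :
    ∑ a ∈ cube r p, ‖cf p W a‖ ^ 2 = (W.card : ℝ) / (p : ℝ) ^ r := by
  have hp0 : (p : ℂ) ^ r ≠ 0 := pow_ne_zero _ (by exact_mod_cast hp.ne')
  have key : ∑ a ∈ cube r p, cf p W a * (starRingEnd ℂ) (cf p W a) = (W.card : ℂ) / (p : ℂ) ^ r := by
    have h1 : ∀ a ∈ cube r p, cf p W a * (starRingEnd ℂ) (cf p W a) =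
        (1 / (p : ℂ) ^ r) * ∑ x ∈ W, cf p W a * e ((∑ i, (a i : ℝ) * (x i : ℝ)) / p) := by
      intro a _
      have h2 : (starRingEnd ℂ) (cf p W a) =
          (1 / (p : ℂ) ^ r) * ∑ x ∈ W, e ((∑ i, (a i : ℝ) * (x i : ℝ)) / p) := by
        rw [cf, map_mul, map_sum]
        congr 1
        · simp
        · refine sum_congr rfl fun x _ => ?_
          rw [conj_e, neg_neg]
      rw [h2, mul_left_comm, mul_sum]
    rw [sum_congr rfl h1, ← mul_sum, sum_comm]
    have h3 : ∀ x ∈ W, ∑ a ∈ cube r p, cf p W a * e ((∑ i, (a i : ℝ) * (x i : ℝ)) / p) = 1 := by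
      intro x hx
      rw [cf_expand p hp W hW x, if_pos]
      have hx' := mem_cube.1 (hW hx)
      have h4 : (fun i => x i % p) = x := by
        funext i
        exact Nat.mod_eq_of_lt (hx' i)
      rw [h4]
      exact hx
    rw [sum_congr rfl h3]
    simp
    ring
  have h5 : ((∑ a ∈ cube r p, ‖cf p W a‖ ^ 2 : ℝ) : ℂ) = (((W.card : ℝ) / (p : ℝ) ^ r : ℝ) : ℂ) := by
    push_cast
    rw [← key]
    refine sum_congr rfl fun a _ => ?_
    rw [Complex.mul_conj']
  exact_mod_cast h5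

lemma nint_ge {k : ℤ} {q : ℕ} (hq : 0 < q) (h : ¬ (q : ℤ) ∣ k) : 1 / (q : ℝ) ≤ nint ((k : ℝ) / q) := by
  have hq0 : (0 : ℝ) < q := by exact_mod_cast hq
  unfold nint
  set m := round ((k : ℝ) / q)
  have h1 : (k : ℝ) / q - m = ((k - q * m : ℤ) : ℝ) / q := by
    push_cast
    field_simp
  rw [h1, abs_div, abs_of_pos hq0]
  have h2 : k - q * m ≠ 0 := by
    intro h3
    exact h ⟨m, by linarith⟩
  have h3 : (1 : ℝ) ≤ |((k - q * m : ℤ) : ℝ)| := by
    rw [← Int.cast_abs]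
    exact_mod_cast Int.one_le_abs h2
  gcongr

/-- Turán's variance bound in several variables. -/
theorem variance {r : ℕ} (M : ℕ) (hM : 1 ≤ M) (P : Finset ℕ) (hP : ∀ p ∈ P, p.Prime)
    (hQ : ∀ p ∈ P, p * p < 2 * M) (W : ℕ → Finset (Fin r → ℕ)) (hW : ∀ p ∈ P, W p ⊆ cube r p) :
    ∑ t ∈ cube r M, (((P.filter fun p => (fun i => t i % p) ∈ W p).card : ℝ) -
        ∑ p ∈ P, ((W p).card : ℝ) / (p : ℝ) ^ r) ^ 2 ≤
      (10 * (M : ℝ)) ^ r * ∑ p ∈ P, ((W p).card : ℝ) / (p : ℝ) ^ r := by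
  classical
  set N : ℕ := 8 * M * ∏ p ∈ P, p with hN
  have hPpos : ∀ p ∈ P, 0 < p := fun p hp => (hP p hp).pos
  have hprod : 0 < ∏ p ∈ P, p := Finset.prod_pos hPpos
  have hN1 : 1 ≤ N := by
    rw [hN]
    have : 0 < 8 * M * ∏ p ∈ P, p := by positivity
    exact this
  have hNM : 8 * M ≤ N := by
    rw [hN]
    exact Nat.le_mul_of_pos_right _ hprod
  have hdvd : ∀ p ∈ P, p ∣ N := fun p hp => (Finset.dvd_prod_of_mem _ hp).mul_left _
  have hN0 : (N : ℝ) ≠ 0 := by exact_mod_cast (Nat.lt_of_lt_of_le Nat.zero_lt_one hN1).ne'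
  have hM0 : (0 : ℝ) < M := by exact_mod_cast hM
  set I : Finset ((_ : ℕ) × (Fin r → ℕ)) := P.sigma fun p => (cube r p).erase 0 with hI
  set u : ((_ : ℕ) × (Fin r → ℕ)) → Fin r → ℤ := fun b i => (b.2 i : ℤ) * ((N / b.1 : ℕ) : ℤ) with hu
  set z : ((_ : ℕ) × (Fin r → ℕ)) → ℂ := fun b => cf b.1 (W b.1) b.2 with hz
  have hquot : ∀ p ∈ P, ((N / p : ℕ) : ℝ) / N = 1 / p := by
    intro p hp
    have h0 : (p : ℝ) ≠ 0 := by exact_mod_cast (hPpos p hp).ne'
    rw [Nat.cast_div (hdvd p hp) h0]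
    field_simp
  have hls := ls_multi N hN1 (fun _ : Fin r => M) (fun _ => ⟨hM, hNM⟩) I u z
  have hlhs : ∀ t ∈ cube r M, (((P.filter fun p => (fun i => t i % p) ∈ W p).card : ℝ) -
        ∑ p ∈ P, ((W p).card : ℝ) / (p : ℝ) ^ r) ^ 2 =
      ‖∑ b ∈ I, z b * e ((∑ i, (u b i : ℝ) * (t i : ℝ)) / N)‖ ^ 2 := by
    intro t _
    have h1 : ∑ b ∈ I, z b * e ((∑ i, (u b i : ℝ) * (t i : ℝ)) / N) =
        (((P.filter fun p => (fun i => t i % p) ∈ W p).card : ℝ) -
        ∑ p ∈ P, ((W p).card : ℝ) / (p : ℝ) ^ r : ℝ) := by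
      rw [hI, Finset.sum_sigma]
      have h2 : ∀ p ∈ P, ∑ a ∈ (cube r p).erase 0,
          z ⟨p, a⟩ * e ((∑ i, (u ⟨p, a⟩ i : ℝ) * (t i : ℝ)) / N) =
          (if (fun i => t i % p) ∈ W p then 1 else 0) - (((W p).card : ℝ) / (p : ℝ) ^ r : ℝ) := by
        intro p hp
        have h3 : ∀ a : Fin r → ℕ, e ((∑ i, (u ⟨p, a⟩ i : ℝ) * (t i : ℝ)) / N) =
            e ((∑ i, (a i : ℝ) * (t i : ℝ)) / p) := by
          intro a
          congr 1
          rw [Finset.sum_div, Finset.sum_div]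
          refine sum_congr rfl fun i _ => ?_
          simp only [hu]
          have h4 := hquot p hp
          push_cast
          calc (a i : ℝ) * ((N / p : ℕ) : ℝ) * (t i : ℝ) / N
              = (a i : ℝ) * (t i : ℝ) * (((N / p : ℕ) : ℝ) / N) := by ring
            _ = (a i : ℝ) * (t i : ℝ) / p := by rw [h4]; ring
        have h5 : (0 : Fin r → ℕ) ∈ cube r p := mem_cube.2 fun i => hPpos p hp
        have h6 := cf_expand p (hPpos p hp) (W p) (hW p hp) t
        rw [← Finset.add_sum_erase _ _ h5] at h6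
        have h7 : cf p (W p) 0 * e ((∑ i, (((0 : Fin r → ℕ) i : ℕ) : ℝ) * (t i : ℝ)) / p) =
            (((W p).card : ℝ) / (p : ℝ) ^ r : ℝ) := by
          rw [cf_zero]
          simp [e_zero]
        rw [h7] at h6
        have h8 : ∑ a ∈ (cube r p).erase 0, z ⟨p, a⟩ * e ((∑ i, (u ⟨p, a⟩ i : ℝ) * (t i : ℝ)) / N) =
            ∑ a ∈ (cube r p).erase 0, cf p (W p) a * e ((∑ i, (a i : ℝ) * (t i : ℝ)) / p) := by
          refine sum_congr rfl fun a _ => ?_
          rw [h3 a]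
        rw [h8, ← h6]
        ring
      rw [sum_congr rfl h2, sum_sub_distrib]
      push_cast
      congr 1
      rw [Finset.sum_ite]
      simp
    rw [h1, Complex.norm_real, Real.norm_eq_abs, sq_abs]
  rw [sum_congr rfl hlhs]
  refine hls.trans ?_
  rw [Finset.prod_const, Finset.card_univ, Fintype.card_fin]
  refine mul_le_mul_of_nonneg_left ?_ (by positivity)
  -- only the diagonal terms
  have hdiag : ∀ b ∈ I, ∑ b' ∈ I,
      (if ∀ i, nint (((u b i - u b' i : ℤ) : ℝ) / N) ≤ 1 / (2 * (M : ℝ)) then ‖z b‖ * ‖z b'‖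
        else 0) ≤ ‖z b‖ ^ 2 := by
    rintro ⟨p, a⟩ hb
    rw [Finset.sum_eq_single_of_mem _ hb]
    · split_ifs
      · rw [sq]
      · positivity
    · rintro ⟨p', a'⟩ hb' hne
      rw [if_neg]
      intro hall
      rw [hI, Finset.mem_sigma, Finset.mem_erase] at hb hb'
      obtain ⟨hp, ha0, ha⟩ := hb
      obtain ⟨hp', ha0', ha'⟩ := hb'
      simp only at hp ha0 ha hp' ha0' ha'
      rw [mem_cube] at ha ha'
      have hpp : (0 : ℝ) < p := by exact_mod_cast hPpos p hp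
      have hpp' : (0 : ℝ) < p' := by exact_mod_cast hPpos p' hp'
      have hval : ∀ i, ((u ⟨p, a⟩ i - u ⟨p', a'⟩ i : ℤ) : ℝ) / N = (a i : ℝ) / p - (a' i : ℝ) / p' := by
        intro i
        simp only [hu]
        have h4 := hquot p hp
        have h4' := hquot p' hp'
        push_cast
        calc ((a i : ℝ) * ((N / p : ℕ) : ℝ) - (a' i : ℝ) * ((N / p' : ℕ) : ℝ)) / N
            = (a i : ℝ) * (((N / p : ℕ) : ℝ) / N) - (a' i : ℝ) * (((N / p' : ℕ) : ℝ) / N) := by ring
          _ = (a i : ℝ) / p - (a' i : ℝ) / p' := by rw [h4, h4']; ring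
      by_cases hpe : p = p'
      · subst hpe
        have hna : a ≠ a' := fun h => hne (by rw [h])
        obtain ⟨i, hi⟩ := Function.ne_iff.1 hna
        have h1 := hall i
        rw [hval i] at h1
        have h2 : (a i : ℝ) / p - (a' i : ℝ) / p = (((a i : ℤ) - (a' i : ℤ) : ℤ) : ℝ) / p := by
          push_cast
          ring
        rw [h2] at h1
        have h3 : ¬ (p : ℤ) ∣ (a i : ℤ) - (a' i : ℤ) := by
          intro h4
          have h5 : (a' i : ℤ) ≡ a i [ZMOD p] := (Int.modEq_iff_dvd).2 h4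
          have h6 : a' i ≡ a i [MOD p] := Int.natCast_modEq_iff.1 h5
          have h7 : a' i % p = a i % p := h6
          rw [Nat.mod_eq_of_lt (ha i), Nat.mod_eq_of_lt (ha' i)] at h7
          exact hi h7.symm
        have h4 := (nint_ge (hPpos p hp) h3).trans h1
        have h5 : (p : ℝ) * p < 2 * M := by exact_mod_cast hQ p hp
        have h6 : (1 : ℝ) ≤ p := by exact_mod_cast hPpos p hp
        rw [div_le_div_iff₀ hpp (by positivity)] at h4
        nlinarith
      · obtain ⟨i, hi⟩ := Function.ne_iff.1 ha0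
        have hi' : 0 < a i := Nat.pos_of_ne_zero hi
        have h1 := hall i
        rw [hval i] at h1
        have h2 : (a i : ℝ) / p - (a' i : ℝ) / p' =
            (((a i : ℤ) * (p' : ℤ) - (a' i : ℤ) * (p : ℤ) : ℤ) : ℝ) / ((p * p' : ℕ) : ℝ) := by
          push_cast
          field_simp
        rw [h2] at h1
        have h3 : ¬ ((p * p' : ℕ) : ℤ) ∣ (a i : ℤ) * (p' : ℤ) - (a' i : ℤ) * (p : ℤ) := by
          intro h4
          have h5 : (p : ℤ) ∣ (a i : ℤ) * (p' : ℤ) - (a' i : ℤ) * (p : ℤ) :=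
            (Int.natCast_dvd_natCast.2 (Dvd.intro _ rfl)).trans h4
          have h6 : (p : ℤ) ∣ (a i : ℤ) * (p' : ℤ) := by
            have h7 := h5.add (Dvd.intro_left (a' i : ℤ) rfl : (p : ℤ) ∣ (a' i : ℤ) * (p : ℤ))
            rwa [sub_add_cancel] at h7
          have h7 : p ∣ a i * p' := by exact_mod_cast h6
          rcases (hP p hp).dvd_mul.1 h7 with h8 | h8
          · exact absurd (Nat.le_of_dvd hi' h8) (not_le.2 (ha i))
          · exact hpe ((Nat.prime_dvd_prime_iff_eq (hP p hp) (hP p' hp')).1 h8)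
        have h4 := (nint_ge (Nat.mul_pos (hPpos p hp) (hPpos p' hp')) h3).trans h1
        have h5 : (p : ℝ) * p < 2 * M := by exact_mod_cast hQ p hp
        have h5' : (p' : ℝ) * p' < 2 * M := by exact_mod_cast hQ p' hp'
        push_cast at h4
        rw [div_le_div_iff₀ (by positivity) (by positivity)] at h4
        nlinarith [sq_nonneg ((p : ℝ) - p')]
  refine le_trans (Finset.sum_le_sum (g := fun b => ‖z b‖ ^ 2) fun b hb => ?_) ?_
  · refine le_trans (le_of_eq ?_) (hdiag b hb)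
    refine Finset.sum_congr rfl fun b' _ => ?_
    congr
  rw [hI, Finset.sum_sigma]
  refine Finset.sum_le_sum fun p hp => ?_
  rw [← cf_parseval p (hPpos p hp) (W p) (hW p hp)]
  refine Finset.sum_le_sum_of_subset_of_nonneg (Finset.erase_subset _ _) fun _ _ _ => by positivity

/-- **Turán sieve in several variables.** For sets `Ω p` of residues in `(ℤ/p)^r`, `p ∈ P` prime with
`p ^ 2 ≤ 4 H`, all but `(4 * 10 ^ r + 2 k) (3 H) ^ r / ∑ δ_p` of the integral points `t` of the cube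
`|t_j| ≤ H` are in `Ω p` modulo `p` for more than `k` of the primes `p ∈ P`; `δ_p` is the density of
`Ω p`. -/
theorem few {r : ℕ} (k : ℕ) (P : Finset ℕ) (hP : ∀ p ∈ P, p.Prime) (H : ℕ) (hH : 1 ≤ H)
    (hQ : ∀ p ∈ P, p * p ≤ 4 * H) (Ω : ∀ p : ℕ, Set (Fin r → ZMod p)) :
    (Set.ncard {t : Fin r → ℤ | (∀ j, |t j| ≤ (H : ℤ)) ∧
      Set.ncard {p : ℕ | p ∈ P ∧ (fun j => (t j : ZMod p)) ∈ Ω p} ≤ k} : ℝ) *
      ∑ p ∈ P, ((Ω p).ncard : ℝ) / (p : ℝ) ^ r ≤ (4 * 10 ^ r + 2 * k) * (3 * (H : ℝ)) ^ r := by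
  classical
  set M : ℕ := 2 * H + 1 with hM
  -- shifted residues
  set W : ℕ → Finset (Fin r → ℕ) := fun p =>
    (cube r p).filter fun x => (fun i => ((x i : ℤ) - (H : ℤ) : ZMod p)) ∈ Ω p with hWdef
  have hW : ∀ p ∈ P, W p ⊆ cube r p := fun p _ => Finset.filter_subset _ _
  have hcard : ∀ p ∈ P, (W p).card = (Ω p).ncard := by
    intro p hp
    have : Fact p.Prime := ⟨hP p hp⟩
    have : NeZero p := ⟨(hP p hp).ne_zero⟩
    rw [← Set.ncard_coe_finset]
    refine Set.ncard_congr (fun x _ => fun i => ((x i : ℤ) - (H : ℤ) : ZMod p)) ?_ ?_ ?_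
    · intro x hx
      simp only [hWdef, Finset.coe_filter, Set.mem_ofPred_eq] at hx
      exact hx.2
    · intro x y hx hy hxy
      simp only [hWdef, Finset.coe_filter, Set.mem_ofPred_eq, mem_cube] at hx hy
      funext i
      have h1 := congrFun hxy i
      simp only [Int.cast_natCast, sub_left_inj] at h1
      have h2 := (ZMod.natCast_eq_natCast_iff' _ _ _).1 h1
      rwa [Nat.mod_eq_of_lt (hx.1 i), Nat.mod_eq_of_lt (hy.1 i)] at h2
    · intro y hy
      refine ⟨fun i => (y i + (H : ZMod p)).val, ?_, ?_⟩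
      · simp only [hWdef, Finset.coe_filter, Set.mem_ofPred_eq, mem_cube]
        refine ⟨fun i => ZMod.val_lt _, ?_⟩
        convert hy using 1
        funext i
        simp
      · funext i
        simp
  set S : ℝ := ∑ p ∈ P, ((Ω p).ncard : ℝ) / (p : ℝ) ^ r with hS
  have hS0 : 0 ≤ S := Finset.sum_nonneg fun _ _ => by positivity
  have hSW : ∑ p ∈ P, ((W p).card : ℝ) / (p : ℝ) ^ r = S := by
    refine Finset.sum_congr rfl fun p hp => ?_
    rw [hcard p hp]
  have hvar := variance (r := r) M (by omega) P hP (fun p hp => by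
    have := hQ p hp
    omega) W hW
  rw [hSW] at hvar
  -- the exceptional set
  set E : Finset (Fin r → ℕ) := (cube r M).filter fun t =>
    (P.filter fun p => (fun i => t i % p) ∈ W p).card ≤ k with hE
  have hEle : (Set.ncard {t : Fin r → ℤ | (∀ j, |t j| ≤ (H : ℤ)) ∧
      Set.ncard {p : ℕ | p ∈ P ∧ (fun j => (t j : ZMod p)) ∈ Ω p} ≤ k} : ℝ) ≤ (E.card : ℝ) := by
    rw [Nat.cast_le, ← Set.ncard_coe_finset]
    refine Set.ncard_le_ncard_of_injOn (fun (t : Fin r → ℤ) (i : Fin r) => (t i + (H : ℤ)).toNat) ?_ ?_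
      (Finset.finite_toSet _)
    · rintro t ⟨ht1, ht2⟩
      have hpos : ∀ i, 0 ≤ t i + H := fun i => by
        have := abs_le.1 (ht1 i)
        linarith
      simp only [hE, Finset.coe_filter, Set.mem_ofPred_eq, mem_cube]
      refine ⟨fun i => ?_, ?_⟩
      · have := abs_le.1 (ht1 i)
        have h2 := hpos i
        rw [hM]
        omega
      · refine le_trans (le_of_eq ?_) ht2
        rw [← Set.ncard_coe_finset]
        congr 1
        ext p
        simp only [Finset.coe_filter, Set.mem_ofPred_eq, and_congr_right_iff]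
        intro hp
        have : Fact p.Prime := ⟨hP p hp⟩
        have : NeZero p := ⟨(hP p hp).ne_zero⟩
        simp only [hWdef, Finset.mem_filter, mem_cube]
        have h3 : (fun i => ((((t i + H).toNat % p : ℕ) : ℤ) - (H : ℤ) : ZMod p)) =
            fun j => (t j : ZMod p) := by
          funext i
          have h4 : (((t i + H).toNat : ℕ) : ZMod p) = ((t i + H : ℤ) : ZMod p) := by
            rw [← Int.cast_natCast, Int.toNat_of_nonneg (hpos i)]
          rw [Int.cast_natCast, ZMod.natCast_mod, h4]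
          push_cast
          ring
        constructor
        · rintro ⟨_, h5⟩
          rw [h3] at h5
          exact h5
        · intro h5
          refine ⟨fun i => Nat.mod_lt _ (hP p hp).pos, ?_⟩
          rw [h3]
          exact h5
    · rintro t ⟨ht1, _⟩ s ⟨hs1, _⟩ hts
      funext i
      have h1 := congrFun hts i
      simp only at h1
      have h2 := abs_le.1 (ht1 i)
      have h3 := abs_le.1 (hs1 i)
      omega
  have hH0 : (1 : ℝ) ≤ H := by exact_mod_cast hH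
  have hMH : (M : ℝ) ≤ 3 * H := by
    rw [hM]
    push_cast
    linarith
  have hMr : (M : ℝ) ^ r ≤ (3 * (H : ℝ)) ^ r := pow_le_pow_left₀ (by positivity) hMH r
  refine le_trans (mul_le_mul_of_nonneg_right hEle hS0) ?_
  by_cases hk : S ≤ 2 * k
  · have h1 : (E.card : ℝ) ≤ (M : ℝ) ^ r := by
      have h2 : E.card ≤ (cube r M).card := Finset.card_filter_le _ _
      rw [card_cube] at h2
      exact_mod_cast h2
    calc (E.card : ℝ) * S ≤ (M : ℝ) ^ r * (2 * k) := by gcongr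
      _ ≤ (3 * (H : ℝ)) ^ r * (2 * k) := by gcongr
      _ ≤ (4 * 10 ^ r + 2 * k) * (3 * (H : ℝ)) ^ r := by
          have : (0 : ℝ) ≤ 4 * 10 ^ r * (3 * (H : ℝ)) ^ r := by positivity
          linarith
  · push Not at hk
    have hSpos : 0 < S := lt_of_le_of_lt (by positivity) hk
    have h1 : (E.card : ℝ) * (S / 2) ^ 2 ≤ (10 * (M : ℝ)) ^ r * S := by
      refine le_trans ?_ hvar
      calc (E.card : ℝ) * (S / 2) ^ 2 = ∑ _t ∈ E, (S / 2) ^ 2 := by
            rw [Finset.sum_const, nsmul_eq_mul]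
        _ ≤ ∑ t ∈ E, (((P.filter fun p => (fun i => t i % p) ∈ W p).card : ℝ) - S) ^ 2 := by
            refine Finset.sum_le_sum fun t ht => ?_
            rw [hE, Finset.mem_filter] at ht
            have h2 : ((P.filter fun p => (fun i => t i % p) ∈ W p).card : ℝ) ≤ k := by
              exact_mod_cast ht.2
            nlinarith
        _ ≤ _ := Finset.sum_le_sum_of_subset_of_nonneg (Finset.filter_subset _ _)
            fun _ _ _ => by positivity
    have h2 : (E.card : ℝ) * S ≤ 4 * (10 * (M : ℝ)) ^ r := by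
      have h3 : (E.card : ℝ) * S * S ≤ 4 * (10 * (M : ℝ)) ^ r * S := by nlinarith
      exact le_of_mul_le_mul_right h3 hSpos
    calc (E.card : ℝ) * S ≤ 4 * (10 * (M : ℝ)) ^ r := h2
      _ = 4 * 10 ^ r * (M : ℝ) ^ r := by rw [mul_pow]; ring
      _ ≤ 4 * 10 ^ r * (3 * (H : ℝ)) ^ r := by gcongr
      _ ≤ (4 * 10 ^ r + 2 * k) * (3 * (H : ℝ)) ^ r := by
          have : (0 : ℝ) ≤ 2 * k * (3 * (H : ℝ)) ^ r := by positivity
          linarith

end Pool.Agent.Q128.TS
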